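import Pool.Agent.R497.TB.Defs

/-!
Project TB (helper497), piece ENUM: enumeration of a box by lines.
-/

set_option autoImplicit false

namespace Pool.Agent.R757.TB

open Finset
open Pool.Agent.Y957.MC (box)
open Pool.Agent.R497.TB

lemma card_box {k : ℕ} (M : Fin k → ℕ) : (box M).card = ∏ l, M l := by
  simp [Pool.Agent.Y957.MC.box, Fintype.card_piFinset]

lemma mem_box {k : ℕ} (M m : Fin k → ℕ) : m ∈ box M ↔ ∀ l, 1 ≤ m l ∧ m l ≤ M l := by
  simp [Pool.Agent.Y957.MC.box, Fintype.mem_piFinset]

theorem t_ENUM : S_ENUM := by
  intro k i M hM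
  classical
  set B0 := box (Function.update M i 1) with hB0
  set S := B0.card with hS
  let e : Fin S ≃ B0 := B0.equivFin.symm
  have hprod : S * M i = ∏ l, M l := by
    rw [hS, hB0, card_box, ← Finset.mul_prod_erase univ _ (mem_univ i),
      ← Finset.mul_prod_erase univ M (mem_univ i)]
    rw [Function.update_self, one_mul, mul_comm]
    congr 1
    refine Finset.prod_congr rfl fun l hl => ?_
    rw [Function.update_of_ne (Finset.ne_of_mem_erase hl)]
  have hSpos : 0 < S := by
    have : 0 < S * M i := by rw [hprod]; exact Finset.prod_pos fun l _ => hM l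
    exact Nat.pos_of_mul_pos_right this
  have he : ∀ j : Fin S, ∀ l, 1 ≤ (e j : Fin k → ℕ) l ∧ (e j : Fin k → ℕ) l ≤ M l := by
    intro j l
    have := (mem_box _ _).1 (e j).2 l
    refine ⟨this.1, this.2.trans ?_⟩
    by_cases h : l = i
    · subst h; rw [Function.update_self]; exact hM l
    · rw [Function.update_of_ne h]
  have hei : ∀ j : Fin S, (e j : Fin k → ℕ) i = 1 := by
    intro j
    have := (mem_box _ _).1 (e j).2 i
    rw [Function.update_self] at this
    omega
  let en : ℕ → Fin k → ℕ := fun n =>
    if h : n / M i < S then Function.update (e ⟨n / M i, h⟩ : Fin k → ℕ) i (n % M i + 1) else fun _ => 1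
  have hen : ∀ n (h : n / M i < S), en n = Function.update (e ⟨n / M i, h⟩ : Fin k → ℕ) i (n % M i + 1) := by
    intro n h
    simp only [en, dif_pos h]
  have hdiv : ∀ n, n < S * M i → n / M i < S := by
    intro n hn
    exact Nat.div_lt_of_lt_mul (by rwa [mul_comm])
  have hbd : ∀ n, n < S * M i → ∀ l, 1 ≤ en n l ∧ en n l ≤ M l := by
    intro n hn l
    rw [hen n (hdiv n hn)]
    by_cases h : l = i
    · subst h
      rw [Function.update_self]
      exact ⟨by omega, Nat.mod_lt _ (hM l)⟩
    · rw [Function.update_of_ne h]
      exact he _ l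
  refine ⟨S, en, hSpos, hprod, ?_, hbd, ?_⟩
  · intro u w hu hw
    have h1 : (u * M i + w) / M i = u := by
      rw [mul_comm, Nat.mul_add_div (hM i), Nat.div_eq_of_lt hw, add_zero]
    have h2 : (u * M i + w) % M i = w := by
      rw [mul_comm, Nat.mul_add_mod, Nat.mod_eq_of_lt hw]
    have h3 : (u * M i) / M i = u := Nat.mul_div_cancel _ (hM i)
    rw [hen _ (by rw [h1]; exact hu), hen _ (by rw [h3]; exact hu)]
    rw [Function.update_idem, h2]
    congr 1
    have : (⟨(u * M i + w) / M i, by rw [h1]; exact hu⟩ : Fin S) = ⟨(u * M i) / M i, by rw [h3]; exact hu⟩ := by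
      apply Fin.ext; simp only [h1, h3]
    rw [this]
  · intro F
    have hinj : Set.InjOn en (range (S * M i) : Set ℕ) := by
      intro n hn n' hn' h
      rw [coe_range, Set.mem_Iio] at hn hn'
      have hd := hdiv n hn
      have hd' := hdiv n' hn'
      rw [hen n hd, hen n' hd'] at h
      have hmod : n % M i = n' % M i := by
        have := congrFun h i
        rw [Function.update_self, Function.update_self] at this
        omega
      have hee : (e ⟨n / M i, hd⟩ : Fin k → ℕ) = (e ⟨n' / M i, hd'⟩ : Fin k → ℕ) := by
        funext l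
        by_cases hl : l = i
        · subst hl; rw [hei, hei]
        · have := congrFun h l
          rwa [Function.update_of_ne hl, Function.update_of_ne hl] at this
      have h4 := e.injective (Subtype.ext hee)
      have h5 : n / M i = n' / M i := by simpa using h4
      rw [← Nat.div_add_mod n (M i), ← Nat.div_add_mod n' (M i), h5, hmod]
    have himg : (range (S * M i)).image en = box M := by
      apply Finset.eq_of_subset_of_card_le
      · intro m hm
        obtain ⟨n, hn, rfl⟩ := Finset.mem_image.1 hm
        exact (mem_box _ _).2 (hbd n (Finset.mem_range.1 hn))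
      · rw [Finset.card_image_of_injOn hinj, card_range, card_box, hprod]
    rw [← himg, Finset.sum_image hinj]

end Pool.Agent.R757.TB

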