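import Mathlib

namespace Pool.Agent.R757.VH

open Set

/-- If `n` linear functionals on an `n`-dimensional space satisfy a nontrivial relation
`∑_{i ∈ J} f i = 0`, they have a common nonzero zero. -/
theorem exists_ker {E : Type*} [AddCommGroup E] [Module ℝ E] [FiniteDimensional ℝ E] {n : ℕ}
    (hn : Module.finrank ℝ E = n) (f : Fin n → (E →ₗ[ℝ] ℝ)) (J : Finset (Fin n))
    (hJ : J.Nonempty) (hsum : ∀ w, ∑ i ∈ J, f i w = 0) : ∃ w : E, w ≠ 0 ∧ ∀ i, f i w = 0 := by
  classical
  by_contra hcon
  push Not at hcon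
  have hinj : Function.Injective (LinearMap.pi f) := by
    rw [← LinearMap.ker_eq_bot, Submodule.eq_bot_iff]
    intro w hw
    by_contra hw0
    obtain ⟨i, hi⟩ := hcon w hw0
    apply hi
    have : (LinearMap.pi f) w = 0 := hw
    have h2 := congrFun this i
    simpa using h2
  have hsurj : Function.Surjective (LinearMap.pi f) := by
    have hfr : Module.finrank ℝ E = Module.finrank ℝ (Fin n → ℝ) := by simp [hn]
    exact (LinearMap.injective_iff_surjective_of_finrank_eq_finrank hfr).1 hinj
  obtain ⟨j, hj⟩ := hJ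
  obtain ⟨w, hw⟩ := hsurj (Pi.single j 1)
  have h1 := hsum w
  have h2 : ∀ i, f i w = (Pi.single j 1 : Fin n → ℝ) i := by
    intro i
    have := congrFun hw i
    simpa using this
  simp only [h2] at h1
  rw [Finset.sum_pi_single'] at h1
  simp [hj] at h1

/-- A ray through all bodies, compact case. -/
theorem ray_compact {E : Type*} [NormedAddCommGroup E] [NormedSpace ℝ E] [FiniteDimensional ℝ E]
    {n : ℕ} (hn : Module.finrank ℝ E = n) (hn0 : 0 < n) (S : Fin n → Set E)
    (hS : ∀ i, IsCompact (S i)) (hc : ∀ i, Convex ℝ (S i)) (hne : ∀ i, (S i).Nonempty)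
    (h0 : ∀ i, (0 : E) ∉ S i)
    (hP : ∀ w : E, w ≠ 0 → ∃ t : ℝ, ∃ i, t • w ∈ S i) :
    ∃ v : E, ∀ i, ∃ t : ℝ, 0 < t ∧ t • v ∈ S i := by
  classical
  by_contra hcon
  push Not at hcon
  -- the compact convex set in the product
  set F : (Fin n → ℝ) × (Fin n → E) → (Fin n → E) := fun p i => p.1 i • p.2 i with hF
  set Z : Set (Fin n → E) := F '' ((stdSimplex ℝ (Fin n)) ×ˢ (Set.pi univ S)) with hZ
  have hFc : Continuous F := by
    rw [hF]
    fun_prop
  have hZc : IsCompact Z := by
    apply IsCompact.image _ hFc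
    exact (isCompact_stdSimplex ℝ (Fin n)).prod (isCompact_univ_pi hS)
  have hZconv : Convex ℝ Z := by
    rintro _ ⟨⟨l, y⟩, ⟨hl, hy⟩, rfl⟩ _ ⟨⟨m, z⟩, ⟨hm, hz⟩, rfl⟩ a b ha hb hab
    refine ⟨⟨fun i => a * l i + b * m i, fun i => if a * l i + b * m i = 0 then y i else
      (a * l i / (a * l i + b * m i)) • y i + (b * m i / (a * l i + b * m i)) • z i⟩, ⟨?_, ?_⟩, ?_⟩
    · refine ⟨fun i => ?_, ?_⟩
      · have := hl.1 i
        have := hm.1 i
        positivity
      · simp only
        rw [Finset.sum_add_distrib, ← Finset.mul_sum, ← Finset.mul_sum, hl.2, hm.2]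
        simpa using hab
    · intro i _
      simp only
      split_ifs with h
      · exact hy i (mem_univ i)
      · have h1 : 0 ≤ a * l i := mul_nonneg ha (hl.1 i)
        have h2 : 0 ≤ b * m i := mul_nonneg hb (hm.1 i)
        have h3 : 0 < a * l i + b * m i := lt_of_le_of_ne (by positivity) (Ne.symm h)
        apply hc i (hy i (mem_univ i)) (hz i (mem_univ i))
        · positivity
        · positivity
        · field_simp
    · funext i
      simp only [hF, Pi.add_apply, Pi.smul_apply]
      split_ifs with h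
      · have h1 : 0 ≤ a * l i := mul_nonneg ha (hl.1 i)
        have h2 : 0 ≤ b * m i := mul_nonneg hb (hm.1 i)
        have h3 : a * l i = 0 := by linarith
        have h4 : b * m i = 0 := by linarith
        rw [h, smul_smul, smul_smul, h3, h4]
        simp
      · rw [smul_add, smul_smul, smul_smul, smul_smul, smul_smul]
        congr 2
        · field_simp
        · field_simp
  -- the diagonal
  set D : Submodule ℝ (Fin n → E) := LinearMap.range (LinearMap.pi (fun _ => LinearMap.id) :
    E →ₗ[ℝ] (Fin n → E)) with hD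
  have hDmem : ∀ v : E, (fun _ => v) ∈ D := fun v => ⟨v, rfl⟩
  have hDcl : IsClosed (D : Set (Fin n → E)) := Submodule.closed_of_finiteDimensional D
  have hdisj : Disjoint Z (D : Set (Fin n → E)) := by
    rw [Set.disjoint_left]
    rintro _ ⟨⟨l, y⟩, ⟨hl, hy⟩, rfl⟩ ⟨v, hv⟩
    have hv' : ∀ i, l i • y i = v := by
      intro i
      have := congrFun hv i
      simp [hF] at this
      exact this.symm
    by_cases hv0 : v = 0
    · have hl0 : ∀ i, l i = 0 := by
        intro i
        have h1 := hv' i
        rw [hv0] at h1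
        rcases smul_eq_zero.1 h1 with h | h
        · exact h
        · exfalso
          apply h0 i
          rw [← h]
          exact hy i (mem_univ i)
      have := hl.2
      simp [hl0] at this
    · obtain ⟨i, hi⟩ := hcon v
      have hli : 0 < l i := by
        refine lt_of_le_of_ne (hl.1 i) ?_
        intro h
        apply hv0
        rw [← hv' i, ← h, zero_smul]
      apply hi (l i)⁻¹ (by positivity)
      rw [← hv' i, smul_smul, inv_mul_cancel₀ hli.ne', one_smul]
      exact hy i (mem_univ i)
  obtain ⟨f, u, w, hfu, huw, hwf⟩ := geometric_hahn_banach_compact_closed hZconv hZc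
    (D.convex) hDcl hdisj
  have hfD : ∀ b ∈ D, f b = 0 := by
    intro b hb
    by_contra hne'
    have h1 := hwf (((w - 1) / f b) • b) (D.smul_mem _ hb)
    rw [map_smul, smul_eq_mul, div_mul_cancel₀ _ hne'] at h1
    linarith
  have hw0 : w < 0 := by
    have := hwf 0 D.zero_mem
    simpa using this
  set g : Fin n → (E →ₗ[ℝ] ℝ) := fun i => f.toLinearMap.comp (LinearMap.single ℝ (fun _ => E) i)
    with hg
  have hgneg : ∀ i, ∀ y ∈ S i, g i y < 0 := by
    intro i y hy
    choose c hc' using hne
    have hz : (Pi.single i y : Fin n → E) ∈ Z := by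
      refine ⟨⟨Pi.single i 1, fun j => if h : j = i then y else c j⟩, ⟨?_, ?_⟩, ?_⟩
      · exact single_mem_stdSimplex ℝ i
      · intro j _
        simp only
        split_ifs with h
        · rw [h]; exact hy
        · exact hc' j
      · funext j
        simp only [hF]
        by_cases h : j = i
        · subst h; simp
        · simp [h]
    have h1 := hfu _ hz
    simp only [hg, LinearMap.comp_apply, LinearMap.single_apply]
    have : f (Pi.single i y) < 0 := by linarith
    exact this
  have hgsum : ∀ v, ∑ i ∈ Finset.univ, g i v = 0 := by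
    intro v
    have h1 := hfD _ (hDmem v)
    have h2 : (fun _ => v : Fin n → E) = ∑ i, Pi.single i v := by
      rw [Finset.univ_sum_single (fun _ : Fin n => v)]
    rw [h2, map_sum] at h1
    simpa [hg] using h1
  have : Nonempty (Fin n) := ⟨⟨0, hn0⟩⟩
  obtain ⟨w', hw', hgw⟩ := exists_ker hn g Finset.univ Finset.univ_nonempty hgsum
  obtain ⟨t, i, hti⟩ := hP w' hw'
  have h1 := hgneg i _ hti
  rw [map_smul, hgw i] at h1
  simp at h1

/-- A ray through all bodies, open case. -/
theorem ray_open {E : Type*} [NormedAddCommGroup E] [NormedSpace ℝ E] [FiniteDimensional ℝ E]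
    {n : ℕ} (hn : Module.finrank ℝ E = n) (S : Fin n → Set E)
    (hS : ∀ i, IsOpen (S i)) (hc : ∀ i, Convex ℝ (S i)) (hne : ∀ i, (S i).Nonempty)
    (h0 : ∀ i, (0 : E) ∉ S i)
    (hP : ∀ w : E, w ≠ 0 → ∃ t : ℝ, ∃ i, t • w ∈ S i) :
    ∃ v : E, ∀ i, ∃ t : ℝ, 0 < t ∧ t • v ∈ S i := by
  classical
  by_contra hcon
  push Not at hcon
  -- open cones
  set K : Fin n → Set E := fun i => {a | ∃ t : ℝ, 0 < t ∧ t • a ∈ S i} with hK
  have hKo : ∀ i, IsOpen (K i) := by
    intro i
    have : K i = ⋃ t : {t : ℝ // 0 < t}, (fun a : E => (t : ℝ) • a) ⁻¹' (S i) := by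
      ext a
      simp [hK]
    rw [this]
    exact isOpen_iUnion fun t => (hS i).preimage (continuous_const_smul _)
  have hKconv : ∀ i, Convex ℝ (K i) := by
    rintro i x ⟨t, ht, hx⟩ y ⟨s, hs, hy⟩ a b ha hb hab
    have hpos : 0 < a / t + b / s := by
      rcases ha.eq_or_lt with h | h
      · have : b = 1 := by linarith
        rw [← h, this]
        positivity
      · positivity
    refine ⟨(a / t + b / s)⁻¹, by positivity, ?_⟩
    have := hc i hx hy (a := (a / t + b / s)⁻¹ * (a / t)) (b := (a / t + b / s)⁻¹ * (b / s))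
      (by positivity) (by positivity) (by rw [← mul_add]; exact inv_mul_cancel₀ hpos.ne')
    convert this using 1
    rw [smul_add, smul_smul, smul_smul, smul_smul, smul_smul]
    congr 2
    · field_simp
    · field_simp
  have hKcone : ∀ i, ∀ a ∈ K i, ∀ r : ℝ, 0 < r → r • a ∈ K i := by
    rintro i a ⟨t, ht, hta⟩ r hr
    refine ⟨t / r, by positivity, ?_⟩
    rw [smul_smul, div_mul_cancel₀ _ hr.ne']
    exact hta
  have hSK : ∀ i, S i ⊆ K i := fun i y hy => ⟨1, one_pos, by simpa using hy⟩
  set A : Set (Fin n → E) := Set.pi univ K with hA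
  have hAo : IsOpen A := isOpen_set_pi Set.finite_univ (fun i _ => hKo i)
  have hAconv : Convex ℝ A := convex_pi (fun i _ => hKconv i)
  set D : Submodule ℝ (Fin n → E) := LinearMap.range (LinearMap.pi (fun _ => LinearMap.id) :
    E →ₗ[ℝ] (Fin n → E)) with hD
  have hDmem : ∀ v : E, (fun _ => v) ∈ D := fun v => ⟨v, rfl⟩
  have hdisj : Disjoint A (D : Set (Fin n → E)) := by
    rw [Set.disjoint_left]
    rintro _ ha ⟨v, rfl⟩
    obtain ⟨i, hi⟩ := hcon v
    obtain ⟨t, ht, hta⟩ := ha i (mem_univ i)
    exact hi t ht hta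
  obtain ⟨f, u, hfu, huf⟩ := geometric_hahn_banach_open hAconv hAo (D.convex) hdisj
  have hfD : ∀ b ∈ D, f b = 0 := by
    intro b hb
    by_contra hne'
    have h1 := huf (((u - 1) / f b) • b) (D.smul_mem _ hb)
    rw [map_smul, smul_eq_mul, div_mul_cancel₀ _ hne'] at h1
    linarith
  have hu0 : u ≤ 0 := by
    have := huf 0 D.zero_mem
    simpa using this
  have hfneg : ∀ a ∈ A, f a < 0 := fun a ha => lt_of_lt_of_le (hfu a ha) hu0
  set g : Fin n → (E →L[ℝ] ℝ) := fun i => f.comp (ContinuousLinearMap.single ℝ (fun _ => E) i)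
    with hg
  have hgsum : ∀ a : Fin n → E, f a = ∑ i, g i (a i) := by
    intro a
    conv_lhs => rw [← Finset.univ_sum_single a]
    rw [map_sum]
    rfl
  choose c hcS using hne
  have hgle : ∀ i, ∀ y ∈ S i, g i y ≤ 0 := by
    intro i y hy
    by_contra hlt
    push Not at hlt
    set M : ℝ := ∑ j, |g j (c j)| with hM
    have hM0 : 0 ≤ M := by positivity
    -- the tuple with y at i and ε c_j elsewhere
    set e : ℝ := g i y / (M + 1) with he
    have he0 : 0 < e := by positivity
    have hmem : (fun j => if j = i then y else e • c j) ∈ A := by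
      intro j _
      simp only
      split_ifs with h
      · rw [h]; exact hSK i hy
      · exact hKcone j _ (hSK j (hcS j)) e he0
    have h1 := hfneg _ hmem
    rw [hgsum] at h1
    rw [← Finset.add_sum_erase Finset.univ _ (Finset.mem_univ i)] at h1
    simp only [if_true] at h1
    have h2 : -(e * M) ≤ ∑ j ∈ Finset.univ.erase i, g j (if j = i then y else e • c j) := by
      have h3 : ∀ j ∈ Finset.univ.erase i, -(e * |g j (c j)|) ≤
          g j (if j = i then y else e • c j) := by
        intro j hj
        have hji : j ≠ i := by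
          simpa using hj
        rw [if_neg hji, map_smul, smul_eq_mul]
        have := neg_abs_le (g j (c j))
        nlinarith
      calc -(e * M) ≤ ∑ j ∈ Finset.univ.erase i, -(e * |g j (c j)|) := by
            rw [Finset.sum_neg_distrib, ← Finset.mul_sum]
            apply neg_le_neg
            apply mul_le_mul_of_nonneg_left _ he0.le
            apply Finset.sum_le_sum_of_subset_of_nonneg (Finset.erase_subset _ _)
            intro k _ _
            positivity
        _ ≤ _ := Finset.sum_le_sum h3
    have h4 : e * M < g i y := by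
      rw [he, div_mul_eq_mul_div, div_lt_iff₀ (by positivity)]
      nlinarith
    linarith
  have hglt : ∀ i, g i ≠ 0 → ∀ y ∈ S i, g i y < 0 := by
    intro i hgi y hy
    refine lt_of_le_of_ne (hgle i y hy) ?_
    intro h0'
    have hopen : IsOpenMap (g i) := (g i).isOpenMap_of_ne_zero hgi
    have h1 : IsOpen (g i '' S i) := hopen _ (hS i)
    have h2 : (0 : ℝ) ∈ g i '' S i := ⟨y, hy, h0'⟩
    rw [Metric.isOpen_iff] at h1
    obtain ⟨ε, hε, hball⟩ := h1 0 h2
    have h3 : ε / 2 ∈ Metric.ball (0 : ℝ) ε := by
      rw [Metric.mem_ball, Real.dist_eq, sub_zero, abs_of_pos (by positivity)]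
      linarith
    obtain ⟨z, hz, hgz⟩ := hball h3
    have := hgle i z hz
    linarith
  have hsep : ∀ i, ∃ φ : E →L[ℝ] ℝ, ∀ y ∈ S i, φ y < 0 := by
    intro i
    obtain ⟨φ, hφ⟩ := geometric_hahn_banach_open_point (hc i) (hS i) (h0 i)
    exact ⟨φ, fun y hy => by simpa using hφ y hy⟩
  choose φ hφ using hsep
  set J : Finset (Fin n) := Finset.univ.filter (fun i => g i ≠ 0) with hJ
  have hJne : J.Nonempty := by
    rw [Finset.nonempty_iff_ne_empty]
    intro hJe
    have hall : ∀ i, g i = 0 := by
      intro i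
      by_contra h
      have : i ∈ J := by simp [hJ, h]
      rw [hJe] at this
      simp at this
    have h1 := hfneg c (fun j _ => hSK j (hcS j))
    rw [hgsum] at h1
    simp [hall] at h1
  obtain ⟨w, hw, hgw⟩ := exists_ker hn
    (fun i => (if g i = 0 then φ i else g i : E →L[ℝ] ℝ).toLinearMap) J hJne (by
      intro w
      have h1 := hgsum (fun _ => w)
      rw [hfD _ (hDmem w)] at h1
      have h2 : ∑ i, g i w = ∑ i ∈ J, g i w := by
        symm
        apply Finset.sum_subset (Finset.subset_univ _)
        intro i _ hi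
        have : g i = 0 := by
          by_contra h
          exact hi (by simp [hJ, h])
        rw [this]; rfl
      rw [h2] at h1
      rw [h1]
      apply Finset.sum_congr rfl
      intro i hi
      have : g i ≠ 0 := by
        rw [hJ, Finset.mem_filter] at hi
        exact hi.2
      simp [this])
  obtain ⟨t, i, hti⟩ := hP w hw
  have h1 := hgw i
  by_cases hgi : g i = 0
  · have h2 := hφ i _ hti
    rw [if_pos hgi] at h1
    have h1' : φ i w = 0 := h1
    rw [map_smul, h1'] at h2
    simp at h2
  · have h2 := hglt i hgi _ hti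
    rw [if_neg hgi] at h1
    have h1' : g i w = 0 := h1
    rw [map_smul, h1'] at h2
    simp at h2

end Pool.Agent.R757.VH
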