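import Mathlib
import Pool.Agent.R757.VHBasic

namespace Pool.Agent.R757.VH

open Set

variable {E : Type*} [NormedAddCommGroup E] [NormedSpace ℝ E]

/-- Visual hull, direction form. -/
def hull (S : Set E) : Set E := {x | ∀ w : E, w ≠ 0 → ∃ t : ℝ, x + t • w ∈ S}

theorem subset_hull (S : Set E) : S ⊆ hull S := fun x hx w _ => ⟨0, by simpa using hx⟩

/-- The rays: if the ray from `x` in direction `v` meets all the sets, then the points of the ray
before all the sets stay in the hull. -/
theorem seg_mem {n : ℕ} (S : Fin n → Set E) (hc : ∀ i, Convex ℝ (S i)) (x v : E)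
    (hx : x ∈ hull (⋃ i, S i)) (t : Fin n → ℝ) (ht : ∀ i, 0 < t i) (htv : ∀ i, x + t i • v ∈ S i)
    (s : ℝ) (hs : 0 ≤ s) (hst : ∀ i, s ≤ t i) : x + s • v ∈ hull (⋃ i, S i) := by
  intro w hw
  obtain ⟨r, hr⟩ := hx w hw
  rw [mem_iUnion] at hr
  obtain ⟨i, hi⟩ := hr
  refine ⟨(1 - s / t i) * r, ?_⟩
  rw [mem_iUnion]
  refine ⟨i, ?_⟩
  have h1 : s / t i ≤ 1 := (div_le_one (ht i)).2 (hst i)
  have h2 : 0 ≤ s / t i := div_nonneg hs (ht i).le
  have h3 := hc i (htv i) hi h2 (sub_nonneg.2 h1) (by ring)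
  convert h3 using 1
  have h4 : s = s / t i * t i := by
    rw [div_mul_cancel₀ _ (ht i).ne']
  rw [smul_add, smul_add, smul_smul, smul_smul, ← h4]
  module

/-- Data of strict separation, antisymmetric. -/
structure Sep {n : ℕ} (S : Fin n → Set E) (φ : Fin n → Fin n → (E →L[ℝ] ℝ))
    (c : Fin n → Fin n → ℝ) : Prop where
  anti : ∀ i j, φ i j = - φ j i
  antic : ∀ i j, c i j = - c j i
  pos : ∀ i j, i ≠ j → ∀ y ∈ S i, c i j < φ i j y

theorem Sep.neg {n : ℕ} {S : Fin n → Set E} {φ : Fin n → Fin n → (E →L[ℝ] ℝ)}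
    {c : Fin n → Fin n → ℝ} (h : Sep S φ c) (i j : Fin n) (hij : i ≠ j) (y : E) (hy : y ∈ S j) :
    φ i j y < c i j := by
  have h1 := h.pos j i hij.symm y hy
  rw [h.anti, h.antic]
  simp only [neg_apply]
  linarith

/-- The open set of points on the side of `k`. -/
def U {n : ℕ} (φ : Fin n → Fin n → (E →L[ℝ] ℝ)) (c : Fin n → Fin n → ℝ) (k : Fin n) : Set E :=
  {x | ∀ j, j ≠ k → c k j < φ k j x}

theorem U_open {n : ℕ} (φ : Fin n → Fin n → (E →L[ℝ] ℝ)) (c : Fin n → Fin n → ℝ) (k : Fin n) :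
    IsOpen (U φ c k) := by
  have : U φ c k = ⋂ j : {j : Fin n // j ≠ k}, {x | c k j < φ k j x} := by
    ext x; simp [U]
  rw [this]
  exact isOpen_iInter_of_finite fun j => isOpen_lt continuous_const (φ k j).continuous

theorem U_disj {n : ℕ} {S : Fin n → Set E} {φ : Fin n → Fin n → (E →L[ℝ] ℝ)}
    {c : Fin n → Fin n → ℝ} (h : Sep S φ c) {k l : Fin n} {x : E} (hk : x ∈ U φ c k)
    (hl : x ∈ U φ c l) : k = l := by
  by_contra hkl
  have h1 := hk l (fun h => hkl h.symm)
  have h2 := hl k hkl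
  rw [h.anti, h.antic] at h2
  simp only [neg_apply] at h2
  linarith

/-- Source of the tournament from a common ray. -/
theorem source_of_ray {n : ℕ} {S : Fin n → Set E} {φ : Fin n → Fin n → (E →L[ℝ] ℝ)}
    {c : Fin n → Fin n → ℝ} (h : Sep S φ c) (x v : E)
    (t : Fin n → ℝ) (ht : ∀ i, 0 < t i) (htv : ∀ i, x + t i • v ∈ S i)
    (k : Fin n) (hk : ∀ i, t k ≤ t i) : x ∈ U φ c k := by
  intro j hj
  have h1 := h.pos k j hj.symm _ (htv k)
  have h2 := h.neg k j hj.symm _ (htv j)
  simp only [map_add, map_smul, smul_eq_mul] at h1 h2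
  have h3 := hk j
  have h4 := ht k
  by_contra hcon
  push Not at hcon
  have h5 : 0 < φ k j v := by
    by_contra h6
    push Not at h6
    nlinarith
  nlinarith

section comps

variable {n : ℕ} {S : Fin n → Set E}

/-- at least `n` components -/
theorem comps_ge {φ : Fin n → Fin n → (E →L[ℝ] ℝ)} {c : Fin n → Fin n → ℝ} (h : Sep S φ c)
    (s : Fin n → E) (hs : ∀ i, s i ∈ S i)
    (hU : ∀ x ∈ hull (⋃ i, S i), ∃ k, x ∈ U φ c k) :
    Function.Injective (fun i : Fin n => (ConnectedComponents.mk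
      (⟨s i, subset_hull _ (mem_iUnion.2 ⟨i, hs i⟩)⟩ : hull (⋃ i, S i)))) := by
  classical
  choose F hF using hU
  set f : hull (⋃ i, S i) → Fin n := fun x => F x.1 x.2 with hf
  have hfc : Continuous f := by
    rw [continuous_discrete_rng]
    intro k
    have : f ⁻¹' {k} = Subtype.val ⁻¹' (U φ c k) := by
      ext x
      simp only [mem_preimage, mem_singleton_iff]
      constructor
      · intro hx
        rw [← hx]
        exact hF x.1 x.2
      · intro hx
        exact U_disj h (hF x.1 x.2) hx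
    rw [this]
    exact (U_open φ c k).preimage continuous_subtype_val
  intro i j hij
  simp only at hij
  have h1 := congrArg hfc.connectedComponentsLift hij
  simp only [Continuous.connectedComponentsLift_apply_coe] at h1
  have h2 : ∀ i, f ⟨s i, subset_hull _ (mem_iUnion.2 ⟨i, hs i⟩)⟩ = i := by
    intro i
    apply U_disj h (hF _ _)
    intro j hj
    exact h.pos i j hj.symm _ (hs i)
  rw [h2, h2] at h1
  exact h1

/-- at most `n` components, when rays exist -/
theorem comps_le (hc : ∀ i, Convex ℝ (S i)) (hn : 0 < n)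
    (s : Fin n → E) (hs : ∀ i, s i ∈ S i)
    (hray : ∀ x ∈ hull (⋃ i, S i), (∀ i, x ∉ S i) →
      ∃ v : E, ∀ i, ∃ t : ℝ, 0 < t ∧ x + t • v ∈ S i) :
    Function.Surjective (fun i : Fin n => (ConnectedComponents.mk
      (⟨s i, subset_hull _ (mem_iUnion.2 ⟨i, hs i⟩)⟩ : hull (⋃ i, S i)))) := by
  intro C
  obtain ⟨⟨x, hx⟩, rfl⟩ := ConnectedComponents.surjective_coe C
  -- it suffices to find a preconnected set in the hull containing x and s k
  suffices hsuff : ∃ k, ∃ T : Set E, IsPreconnected T ∧ T ⊆ hull (⋃ i, S i) ∧ x ∈ T ∧ s k ∈ T by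
    obtain ⟨k, T, hT, hTP, hxT, hsT⟩ := hsuff
    refine ⟨k, ?_⟩
    simp only
    rw [ConnectedComponents.coe_eq_coe']
    have h1 : IsPreconnected ((Subtype.val : hull (⋃ i, S i) → E) ⁻¹' T) := by
      rw [← Topology.IsInducing.subtypeVal.isPreconnected_image, Subtype.image_preimage_coe]
      rwa [inter_eq_right.2 hTP]
    exact h1.subset_connectedComponent hxT hsT
  by_cases hxS : ∃ i, x ∈ S i
  · obtain ⟨i, hi⟩ := hxS
    exact ⟨i, S i, (hc i).isPreconnected, (subset_iUnion S i).trans (subset_hull _), hi, hs i⟩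
  · push Not at hxS
    obtain ⟨v, hv⟩ := hray x hx hxS
    choose t ht htv using hv
    have : Nonempty (Fin n) := ⟨⟨0, hn⟩⟩
    obtain ⟨k, hk⟩ := Finite.exists_min t
    refine ⟨k, segment ℝ x (x + t k • v) ∪ S k, ?_, ?_, Or.inl (left_mem_segment _ _ _),
      Or.inr (hs k)⟩
    · exact IsPreconnected.union (x + t k • v) (right_mem_segment _ _ _) (htv k)
        (convex_segment _ _).isPreconnected (hc k).isPreconnected
    · apply union_subset
      · rintro _ ⟨a, b, ha, hb, hab, rfl⟩
        have h1 : a • x + b • (x + t k • v) = x + (b * t k) • v := by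
          have : a = 1 - b := by linarith
          rw [this]
          module
        rw [h1]
        apply seg_mem S hc x v hx t ht htv
        · exact mul_nonneg hb (ht k).le
        · intro i
          have hb1 : b ≤ 1 := by linarith
          calc b * t k ≤ 1 * t k := mul_le_mul_of_nonneg_right hb1 (ht k).le
            _ = t k := one_mul _
            _ ≤ t i := hk i
      · exact (subset_iUnion S k).trans (subset_hull _)

end comps

section rays

variable [FiniteDimensional ℝ E] {n : ℕ} {S : Fin n → Set E}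

theorem ray_of_closed_or_open (hfr : Module.finrank ℝ E = n) (hn : 0 < n)
    (hc : ∀ i, Convex ℝ (S i)) (hne : ∀ i, (S i).Nonempty)
    (hco : (∀ i, IsCompact (S i)) ∨ (∀ i, IsOpen (S i))) (x : E)
    (hx : x ∈ hull (⋃ i, S i)) (hxS : ∀ i, x ∉ S i) :
    ∃ v : E, ∀ i, ∃ t : ℝ, 0 < t ∧ x + t • v ∈ S i := by
  set T : Fin n → Set E := fun i => (fun y => x + y) ⁻¹' (S i) with hT
  have hTc : ∀ i, Convex ℝ (T i) := by
    intro i
    exact (hc i).translate_preimage_right x
  have hTne : ∀ i, (T i).Nonempty := by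
    intro i
    obtain ⟨y, hy⟩ := hne i
    exact ⟨y - x, by simpa [hT] using hy⟩
  have hT0 : ∀ i, (0 : E) ∉ T i := by
    intro i h
    apply hxS i
    simpa [hT] using h
  have hTP : ∀ w : E, w ≠ 0 → ∃ t : ℝ, ∃ i, t • w ∈ T i := by
    intro w hw
    obtain ⟨t, ht⟩ := hx w hw
    rw [mem_iUnion] at ht
    obtain ⟨i, hi⟩ := ht
    exact ⟨t, i, hi⟩
  rcases hco with hco | hco
  · have hTk : ∀ i, IsCompact (T i) := by
      intro i
      have : T i = (Homeomorph.addLeft x) ⁻¹' (S i) := rfl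
      rw [this, Homeomorph.isCompact_preimage]
      exact hco i
    exact ray_compact hfr hn T hTk hTc hTne hT0 hTP
  · have hTo : ∀ i, IsOpen (T i) := by
      intro i
      exact (hco i).preimage (continuous_const.add continuous_id)
    exact ray_open hfr T hTo hTc hTne hT0 hTP

end rays

end Pool.Agent.R757.VH
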