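import Mathlib
import Pool.Agent.R757.VHComp

namespace Pool.Agent.R757.VH

open Set

/-- Euclidean space of dimension 3. -/
abbrev E3 := EuclideanSpace ℝ (Fin 3)

/-- Open part of the first body. -/
def A0 : Set E3 := {x | x 2 < 0 ∧ 0 < x 0 + x 1 + x 2 ∧ 0 < x 0 - x 1 + x 2 ∧ 2 < x 0 ∧ x 0 < 3}
/-- Boundary part of the first body. -/
def B0 : Set E3 := {x | x 2 = 0 ∧ x 0 = 2 ∧ -2 ≤ x 1 ∧ x 1 ≤ 2}
/-- Open part of the second body. -/
def A1 : Set E3 := {x | 0 < x 2 ∧ 0 < x 1 + x 2 ∧ 0 < x 0 + x 1 + 2 * x 2 ∧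
  1 < x 0 + 2 * x 1 + 4 * x 2 ∧ x 0 + 2 * x 1 + 4 * x 2 < 3 / 2}
/-- Boundary part of the second body. -/
def B1 : Set E3 := {x | x 2 = 0 ∧ x 0 + 2 * x 1 = 1 ∧ -1 ≤ x 0 ∧ x 0 ≤ 0}
/-- Open part of the third body. -/
def A2 : Set E3 := {x | 0 < x 2 ∧ 0 < x 2 - x 1 ∧ 0 < x 0 - x 1 + 2 * x 2 ∧
  10 < x 0 - 2 * x 1 + 4 * x 2 ∧ x 0 - 2 * x 1 + 4 * x 2 < 15}
/-- Boundary part of the third body. -/
def B2 : Set E3 := {x | x 2 = 0 ∧ x 0 - 2 * x 1 = 10 ∧ -10 ≤ x 0 ∧ x 0 ≤ 0}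

/-- The three bodies. -/
def Sex : Fin 3 → Set E3 := ![A0 ∪ B0, A1 ∪ B1, A2 ∪ B2]

theorem convex_union' (A B : Set E3) (hA : Convex ℝ A) (hB : Convex ℝ B)
    (hAB : ∀ x ∈ A, ∀ y ∈ B, ∀ a b : ℝ, 0 < a → 0 ≤ b → a + b = 1 → a • x + b • y ∈ A) :
    Convex ℝ (A ∪ B) := by
  rintro x (hx | hx) y (hy | hy) a b ha hb hab
  · exact Or.inl (hA hx hy ha hb hab)
  · rcases ha.eq_or_lt with h | h
    · right
      have : b = 1 := by linarith
      rw [← h, this]
      simpa using hy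
    · left
      exact hAB x hx y hy a b h hb hab
  · rcases hb.eq_or_lt with h | h
    · right
      have : a = 1 := by linarith
      rw [← h, this]
      simpa using hx
    · left
      rw [add_comm]
      exact hAB y hy x hx b a h ha (by linarith)
  · exact Or.inr (hB hx hy ha hb hab)

theorem lp1 {a b p q : ℝ} (ha : 0 < a) (hb : 0 ≤ b) (hp : 0 < p) (hq : 0 ≤ q) :
    0 < a * p + b * q := by positivity

theorem lp2 {a b p q : ℝ} (ha : 0 ≤ a) (hb : 0 ≤ b) (hab : a + b = 1) (hp : 0 < p) (hq : 0 < q) :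
    0 < a * p + b * q := by
  rcases ha.eq_or_lt with h | h
  · have : b = 1 := by linarith
    rw [← h, this]
    simpa using hq
  · positivity

theorem lp3 {a b p q : ℝ} (ha : 0 ≤ a) (hb : 0 ≤ b) (hp : 0 ≤ p) (hq : 0 ≤ q) :
    0 ≤ a * p + b * q := by positivity

theorem conv0 : Convex ℝ (A0 ∪ B0) := by
  apply convex_union'
  · rintro x ⟨h1, h2, h3, h4, h5⟩ y ⟨k1, k2, k3, k4, k5⟩ a b ha hb hab
    have e1 := lp2 ha hb hab (neg_pos.2 h1) (neg_pos.2 k1)
    have e2 := lp2 ha hb hab h2 k2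
    have e3 := lp2 ha hb hab h3 k3
    have e4 := lp2 ha hb hab (sub_pos.2 h4) (sub_pos.2 k4)
    have e5 := lp2 ha hb hab (sub_pos.2 h5) (sub_pos.2 k5)
    simp only [A0, mem_ofPred_eq, PiLp.add_apply, PiLp.smul_apply, smul_eq_mul]
    refine ⟨?_, ?_, ?_, ?_, ?_⟩ <;> nlinarith
  · rintro x ⟨h1, h2, h3, h4⟩ y ⟨k1, k2, k3, k4⟩ a b ha hb hab
    have e3 := lp3 ha hb (sub_nonneg.2 h3) (sub_nonneg.2 k3)
    have e4 := lp3 ha hb (sub_nonneg.2 h4) (sub_nonneg.2 k4)
    simp only [B0, mem_ofPred_eq, PiLp.add_apply, PiLp.smul_apply, smul_eq_mul, h1, h2, k1, k2]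
    refine ⟨?_, ?_, ?_, ?_⟩ <;> nlinarith
  · rintro x ⟨h1, h2, h3, h4, h5⟩ y ⟨k1, k2, k3, k4⟩ a b ha hb hab
    have e1 := lp1 ha hb (neg_pos.2 h1) (neg_nonneg.2 k1.le)
    have e2 := lp1 ha hb h2 (show 0 ≤ y 0 + y 1 + y 2 by linarith)
    have e3 := lp1 ha hb h3 (show 0 ≤ y 0 - y 1 + y 2 by linarith)
    have e4 := lp1 ha hb (sub_pos.2 h4) (show 0 ≤ y 0 - 2 by linarith)
    have e5 := lp1 ha hb (sub_pos.2 h5) (show 0 ≤ 3 - y 0 by linarith)
    simp only [A0, mem_ofPred_eq, PiLp.add_apply, PiLp.smul_apply, smul_eq_mul]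
    refine ⟨?_, ?_, ?_, ?_, ?_⟩ <;> nlinarith

theorem conv1 : Convex ℝ (A1 ∪ B1) := by
  apply convex_union'
  · rintro x ⟨h1, h2, h3, h4, h5⟩ y ⟨k1, k2, k3, k4, k5⟩ a b ha hb hab
    have e1 := lp2 ha hb hab h1 k1
    have e2 := lp2 ha hb hab h2 k2
    have e3 := lp2 ha hb hab h3 k3
    have e4 := lp2 ha hb hab (sub_pos.2 h4) (sub_pos.2 k4)
    have e5 := lp2 ha hb hab (sub_pos.2 h5) (sub_pos.2 k5)
    simp only [A1, mem_ofPred_eq, PiLp.add_apply, PiLp.smul_apply, smul_eq_mul]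
    refine ⟨?_, ?_, ?_, ?_, ?_⟩ <;> nlinarith
  · rintro x ⟨h1, h2, h3, h4⟩ y ⟨k1, k2, k3, k4⟩ a b ha hb hab
    have e3 := lp3 ha hb (sub_nonneg.2 h3) (sub_nonneg.2 k3)
    have e4 := lp3 ha hb (sub_nonneg.2 h4) (sub_nonneg.2 k4)
    have e2 : a * (x 0 + 2 * x 1) + b * (y 0 + 2 * y 1) = 1 := by rw [h2, k2]; linarith
    simp only [B1, mem_ofPred_eq, PiLp.add_apply, PiLp.smul_apply, smul_eq_mul, h1, k1]
    refine ⟨?_, ?_, ?_, ?_⟩ <;> nlinarith
  · rintro x ⟨h1, h2, h3, h4, h5⟩ y ⟨k1, k2, k3, k4⟩ a b ha hb hab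
    have e1 := lp1 ha hb h1 (show 0 ≤ y 2 by linarith)
    have e2 := lp1 ha hb h2 (show 0 ≤ y 1 + y 2 by linarith)
    have e3 := lp1 ha hb h3 (show 0 ≤ y 0 + y 1 + 2 * y 2 by linarith)
    have e4 := lp1 ha hb (sub_pos.2 h4) (show 0 ≤ y 0 + 2 * y 1 + 4 * y 2 - 1 by linarith)
    have e5 := lp1 ha hb (sub_pos.2 h5) (show 0 ≤ 3 / 2 - (y 0 + 2 * y 1 + 4 * y 2) by linarith)
    simp only [A1, mem_ofPred_eq, PiLp.add_apply, PiLp.smul_apply, smul_eq_mul]
    refine ⟨?_, ?_, ?_, ?_, ?_⟩ <;> nlinarith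

theorem conv2 : Convex ℝ (A2 ∪ B2) := by
  apply convex_union'
  · rintro x ⟨h1, h2, h3, h4, h5⟩ y ⟨k1, k2, k3, k4, k5⟩ a b ha hb hab
    have e1 := lp2 ha hb hab h1 k1
    have e2 := lp2 ha hb hab h2 k2
    have e3 := lp2 ha hb hab h3 k3
    have e4 := lp2 ha hb hab (sub_pos.2 h4) (sub_pos.2 k4)
    have e5 := lp2 ha hb hab (sub_pos.2 h5) (sub_pos.2 k5)
    simp only [A2, mem_ofPred_eq, PiLp.add_apply, PiLp.smul_apply, smul_eq_mul]
    refine ⟨?_, ?_, ?_, ?_, ?_⟩ <;> nlinarith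
  · rintro x ⟨h1, h2, h3, h4⟩ y ⟨k1, k2, k3, k4⟩ a b ha hb hab
    have e3 := lp3 ha hb (sub_nonneg.2 h3) (sub_nonneg.2 k3)
    have e4 := lp3 ha hb (sub_nonneg.2 h4) (sub_nonneg.2 k4)
    have e2 : a * (x 0 - 2 * x 1) + b * (y 0 - 2 * y 1) = 10 := by rw [h2, k2]; linarith
    simp only [B2, mem_ofPred_eq, PiLp.add_apply, PiLp.smul_apply, smul_eq_mul, h1, k1]
    refine ⟨?_, ?_, ?_, ?_⟩ <;> nlinarith
  · rintro x ⟨h1, h2, h3, h4, h5⟩ y ⟨k1, k2, k3, k4⟩ a b ha hb hab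
    have e1 := lp1 ha hb h1 (show 0 ≤ y 2 by linarith)
    have e2 := lp1 ha hb h2 (show 0 ≤ y 2 - y 1 by linarith)
    have e3 := lp1 ha hb h3 (show 0 ≤ y 0 - y 1 + 2 * y 2 by linarith)
    have e4 := lp1 ha hb (sub_pos.2 h4) (show 0 ≤ y 0 - 2 * y 1 + 4 * y 2 - 10 by linarith)
    have e5 := lp1 ha hb (sub_pos.2 h5) (show 0 ≤ 15 - (y 0 - 2 * y 1 + 4 * y 2) by linarith)
    simp only [A2, mem_ofPred_eq, PiLp.add_apply, PiLp.smul_apply, smul_eq_mul]
    refine ⟨?_, ?_, ?_, ?_, ?_⟩ <;> nlinarith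

theorem cont_coord (i : Fin 3) : Continuous (fun x : E3 => x i) := by fun_prop

theorem open0 : IsOpen A0 := by
  have h0 := cont_coord 0
  have h1 := cont_coord 1
  have h2 := cont_coord 2
  refine (isOpen_lt h2 continuous_const).inter ((isOpen_lt continuous_const
    ((h0.add h1).add h2)).inter ((isOpen_lt continuous_const ((h0.sub h1).add h2)).inter
    ((isOpen_lt continuous_const h0).inter (isOpen_lt h0 continuous_const))))

theorem open1 : IsOpen A1 := by
  have h0 := cont_coord 0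
  have h1 := cont_coord 1
  have h2 := cont_coord 2
  refine (isOpen_lt continuous_const h2).inter ((isOpen_lt continuous_const
    (h1.add h2)).inter ((isOpen_lt continuous_const ((h0.add h1).add (h2.const_mul 2))).inter
    ((isOpen_lt continuous_const ((h0.add (h1.const_mul 2)).add (h2.const_mul 4))).inter
    (isOpen_lt ((h0.add (h1.const_mul 2)).add (h2.const_mul 4)) continuous_const))))

theorem open2 : IsOpen A2 := by
  have h0 := cont_coord 0
  have h1 := cont_coord 1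
  have h2 := cont_coord 2
  refine (isOpen_lt continuous_const h2).inter ((isOpen_lt continuous_const
    (h2.sub h1)).inter ((isOpen_lt continuous_const ((h0.sub h1).add (h2.const_mul 2))).inter
    ((isOpen_lt continuous_const ((h0.sub (h1.const_mul 2)).add (h2.const_mul 4))).inter
    (isOpen_lt ((h0.sub (h1.const_mul 2)).add (h2.const_mul 4)) continuous_const))))

theorem bdd_of_coord (S : Set E3) (R : ℝ) (hR : 0 ≤ R) (h : ∀ x ∈ S, ∀ i, |x i| ≤ R) :
    Bornology.IsBounded S := by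
  rw [isBounded_iff_forall_norm_le]
  refine ⟨2 * R, fun x hx => ?_⟩
  rw [EuclideanSpace.norm_eq]
  apply Real.sqrt_le_iff.2
  refine ⟨by positivity, ?_⟩
  rw [Fin.sum_univ_three]
  have h0 := h x hx 0
  have h1 := h x hx 1
  have h2 := h x hx 2
  simp only [Real.norm_eq_abs]
  have k0 : |x 0| ^ 2 ≤ R ^ 2 := pow_le_pow_left₀ (abs_nonneg _) h0 2
  have k1 : |x 1| ^ 2 ≤ R ^ 2 := pow_le_pow_left₀ (abs_nonneg _) h1 2
  have k2 : |x 2| ^ 2 ≤ R ^ 2 := pow_le_pow_left₀ (abs_nonneg _) h2 2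
  nlinarith

theorem forall3 {P : Fin 3 → Prop} (h0 : P 0) (h1 : P 1) (h2 : P 2) : ∀ i, P i := by
  intro i
  fin_cases i
  · exact h0
  · exact h1
  · exact h2

theorem bdd0 : Bornology.IsBounded (A0 ∪ B0) := by
  apply bdd_of_coord _ 10 (by norm_num)
  rintro x (⟨h1, h2, h3, h4, h5⟩ | ⟨h1, h2, h3, h4⟩) <;> apply forall3 <;>
    rw [abs_le] <;> constructor <;> linarith

theorem bdd1 : Bornology.IsBounded (A1 ∪ B1) := by
  apply bdd_of_coord _ 10 (by norm_num)
  rintro x (⟨h1, h2, h3, h4, h5⟩ | ⟨h1, h2, h3, h4⟩) <;> apply forall3 <;>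
    rw [abs_le] <;> constructor <;> linarith

theorem bdd2 : Bornology.IsBounded (A2 ∪ B2) := by
  apply bdd_of_coord _ 100 (by norm_num)
  rintro x (⟨h1, h2, h3, h4, h5⟩ | ⟨h1, h2, h3, h4⟩) <;> apply forall3 <;>
    rw [abs_le] <;> constructor <;> linarith

theorem int0 : (interior (A0 ∪ B0)).Nonempty := by
  refine ⟨!₂[5 / 2, 0, -1], ?_⟩
  apply interior_mono subset_union_left
  rw [open0.interior_eq]
  simp [A0]
  norm_num

theorem int1 : (interior (A1 ∪ B1)).Nonempty := by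
  refine ⟨!₂[-2 / 5, 0, 2 / 5], ?_⟩
  apply interior_mono subset_union_left
  rw [open1.interior_eq]
  simp [A1]
  norm_num

theorem int2 : (interior (A2 ∪ B2)).Nonempty := by
  refine ⟨!₂[-4, 0, 4], ?_⟩
  apply interior_mono subset_union_left
  rw [open2.interior_eq]
  simp [A2]
  norm_num

theorem mem_iff (x : E3) : x ∈ ⋃ i, Sex i ↔ x ∈ A0 ∪ B0 ∨ x ∈ A1 ∪ B1 ∨ x ∈ A2 ∪ B2 := by
  rw [mem_iUnion, Fin.exists_fin_succ, Fin.exists_fin_two]
  rfl

/-- The origin belongs to the hull. -/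
theorem zero_mem : (0 : E3) ∈ hull (⋃ i, Sex i) := by
  intro w hw
  simp only [zero_add, mem_iff]
  by_cases h2 : w 2 = 0
  · by_cases h01 : |w 1| ≤ |w 0|
    · have h0 : w 0 ≠ 0 := by
        intro h0
        apply hw
        rw [h0, abs_zero] at h01
        have h1 : w 1 = 0 := abs_nonpos_iff.1 h01
        ext i
        revert i
        apply forall3 <;> simpa
      refine ⟨2 / w 0, Or.inl (Or.inr ?_)⟩
      have h3 : |2 / w 0 * w 1| ≤ 2 := by
        rw [abs_mul, abs_div, abs_two, div_mul_eq_mul_div, div_le_iff₀ (abs_pos.2 h0)]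
        linarith
      rw [abs_le] at h3
      simp only [B0, mem_ofPred_eq, PiLp.smul_apply, smul_eq_mul]
      refine ⟨by rw [h2, mul_zero], div_mul_cancel₀ _ h0, h3.1, h3.2⟩
    · push Not at h01
      have h1 : w 1 ≠ 0 := by
        intro h1
        rw [h1, abs_zero] at h01
        exact absurd h01 (not_lt.2 (abs_nonneg _))
      set u : ℝ := w 0 / w 1 with hu
      have hu1 : |u| < 1 := by
        rw [hu, abs_div, div_lt_one (abs_pos.2 h1)]
        exact h01
      rw [abs_lt] at hu1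
      have hw0 : w 0 = u * w 1 := by rw [hu, div_mul_cancel₀ _ h1]
      rcases le_total u 0 with hneg | hpos
      · refine ⟨(1 / (u + 2)) / w 1, Or.inr (Or.inl (Or.inr ?_))⟩
        have hu2 : 0 < u + 2 := by linarith
        have e1 : 1 / (u + 2) / w 1 * w 1 = 1 / (u + 2) := div_mul_cancel₀ _ h1
        have e0 : 1 / (u + 2) / w 1 * w 0 = u / (u + 2) := by
          rw [hw0]; field_simp
        simp only [B1, mem_ofPred_eq, PiLp.smul_apply, smul_eq_mul, e1, e0, h2, mul_zero, true_and]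
        refine ⟨by field_simp, ?_, ?_⟩
        · rw [le_div_iff₀ hu2]; linarith
        · exact div_nonpos_of_nonpos_of_nonneg hneg hu2.le
      · refine ⟨(-10 / (2 - u)) / w 1, Or.inr (Or.inr (Or.inr ?_))⟩
        have hu2 : 0 < 2 - u := by linarith
        have e1 : -10 / (2 - u) / w 1 * w 1 = -10 / (2 - u) := div_mul_cancel₀ _ h1
        have e0 : -10 / (2 - u) / w 1 * w 0 = -10 * u / (2 - u) := by
          rw [hw0]; field_simp
        simp only [B2, mem_ofPred_eq, PiLp.smul_apply, smul_eq_mul, e1, e0, h2, mul_zero, true_and]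
        refine ⟨by field_simp; ring, ?_, ?_⟩
        · rw [le_div_iff₀ hu2]; linarith
        · apply div_nonpos_of_nonpos_of_nonneg _ hu2.le
          linarith
  · set u : ℝ := w 0 / w 2 with hu
    set v : ℝ := w 1 / w 2 with hv
    have key : ∀ τ : ℝ, ((τ / w 2) • w : E3) 0 = τ * u ∧ ((τ / w 2) • w : E3) 1 = τ * v ∧
        ((τ / w 2) • w : E3) 2 = τ := by
      intro τ
      simp only [PiLp.smul_apply, smul_eq_mul]
      refine ⟨?_, ?_, div_mul_cancel₀ _ h2⟩
      · rw [hu]; field_simp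
      · rw [hv]; field_simp
    by_cases c1 : -1 < v ∧ -2 < u + v
    · obtain ⟨c1, c2⟩ := c1
      have hpos : 0 < u + 2 * v + 4 := by linarith
      set τ : ℝ := (5 / 4) / (u + 2 * v + 4) with hτ
      have hτ0 : 0 < τ := by positivity
      have hτ1 : τ * (u + 2 * v + 4) = 5 / 4 := div_mul_cancel₀ _ hpos.ne'
      refine ⟨τ / w 2, Or.inr (Or.inl (Or.inl ?_))⟩
      obtain ⟨k0, k1, k2⟩ := key τ
      simp only [A1, mem_ofPred_eq, k0, k1, k2]
      refine ⟨hτ0, ?_, ?_, ?_, ?_⟩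
      · nlinarith [mul_pos hτ0 (show 0 < v + 1 by linarith)]
      · nlinarith [mul_pos hτ0 (show 0 < u + v + 2 by linarith)]
      · nlinarith
      · nlinarith
    · by_cases c2 : v < 1 ∧ -2 < u - v
      · obtain ⟨c2, c3⟩ := c2
        have hpos : 0 < u - 2 * v + 4 := by linarith
        set τ : ℝ := 12 / (u - 2 * v + 4) with hτ
        have hτ0 : 0 < τ := by positivity
        have hτ1 : τ * (u - 2 * v + 4) = 12 := div_mul_cancel₀ _ hpos.ne'
        refine ⟨τ / w 2, Or.inr (Or.inr (Or.inl ?_))⟩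
        obtain ⟨k0, k1, k2⟩ := key τ
        simp only [A2, mem_ofPred_eq, k0, k1, k2]
        refine ⟨hτ0, ?_, ?_, ?_, ?_⟩
        · nlinarith [mul_pos hτ0 (show 0 < 1 - v by linarith)]
        · nlinarith [mul_pos hτ0 (show 0 < u - v + 2 by linarith)]
        · nlinarith
        · nlinarith
      · -- the third case
        have h3 : u + v < -1 ∧ u - v < -1 ∧ u < -1 := by
          by_cases d1 : -1 < v
          · have e1 : u + v ≤ -2 := by
              by_contra h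
              exact c1 ⟨d1, by linarith⟩
            by_cases d2 : v < 1
            · have e2 : u - v ≤ -2 := by
                by_contra h
                exact c2 ⟨d2, by linarith⟩
              exact ⟨by linarith, by linarith, by linarith⟩
            · exact ⟨by linarith, by linarith, by linarith⟩
          · have e2 : u - v ≤ -2 := by
              by_contra h
              exact c2 ⟨by linarith, by linarith⟩
            exact ⟨by linarith, by linarith, by linarith⟩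
        obtain ⟨h3, h4, h5⟩ := h3
        have hu0 : u ≠ 0 := by linarith
        set τ : ℝ := (5 / 2) / u with hτ
        have hτ1 : τ * u = 5 / 2 := div_mul_cancel₀ _ hu0
        have hτ0 : τ < 0 := div_neg_of_pos_of_neg (by norm_num) (by linarith)
        refine ⟨τ / w 2, Or.inl (Or.inl ?_)⟩
        obtain ⟨k0, k1, k2⟩ := key τ
        simp only [A0, mem_ofPred_eq, k0, k1, k2]
        refine ⟨hτ0, ?_, ?_, ?_, ?_⟩
        · nlinarith [mul_pos_of_neg_of_neg hτ0 (show u + v + 1 < 0 by linarith)]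
        · nlinarith [mul_pos_of_neg_of_neg hτ0 (show u - v + 1 < 0 by linarith)]
        · linarith
        · linarith

/-- A direction in which the line through `p` misses everything. -/
theorem not_mem_of_dir {p : E3} (w0 w1 w2 : ℝ) (hw : w0 ≠ 0 ∨ w1 ≠ 0 ∨ w2 ≠ 0)
    (h : ∀ t : ℝ, ∀ x : E3, x 0 = p 0 + t * w0 → x 1 = p 1 + t * w1 → x 2 = p 2 + t * w2 →
      ¬ (x ∈ A0 ∪ B0 ∨ x ∈ A1 ∪ B1 ∨ x ∈ A2 ∪ B2)) : p ∉ hull (⋃ i, Sex i) := by
  intro hp
  have hne : (!₂[w0, w1, w2] : E3) ≠ 0 := by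
    intro h0
    have e0 := congrArg (fun x : E3 => x 0) h0
    have e1 := congrArg (fun x : E3 => x 1) h0
    have e2 := congrArg (fun x : E3 => x 2) h0
    simp at e0 e1 e2
    rcases hw with h | h | h
    · exact h e0
    · exact h e1
    · exact h e2
  obtain ⟨t, ht⟩ := hp _ hne
  rw [mem_iff] at ht
  exact h t _ (by simp) (by simp) (by simp) ht

theorem isolated (p : E3) (hp : p ∈ hull (⋃ i, Sex i)) (h0 : |p 0| < 1 / 100)
    (h1 : |p 1| < 1 / 100) (h2 : |p 2| < 1 / 100) : p = 0 := by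
  rw [abs_lt] at h0 h1 h2
  rcases lt_trichotomy (p 2) 0 with hz | hz | hz
  · -- below
    exfalso
    set a : ℝ := -(p 2) / (7 / 4) with ha
    have ha0 : 0 < a := by
      rw [ha]
      apply div_pos (by linarith) (by norm_num)
    have hp2 : p 2 = -(7 / 4 * a) := by rw [ha]; ring
    refine not_mem_of_dir 2 (1 + 4 * a) (2 * a) (Or.inl (by norm_num)) ?_ hp
    intro t x e0 e1 e2 hx
    have hL : x 2 - a * x 0 = -(7 / 4 * a) - a * p 0 := by rw [e0, e2, hp2]; ring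
    have hg : x 0 - 2 * x 1 + 4 * x 2 = p 0 - 2 * p 1 + 4 * p 2 := by rw [e0, e1, e2]; ring
    have b1 : a * p 0 < a * (1 / 100) := mul_lt_mul_of_pos_left h0.2 ha0
    have b2 : a * (-(1 / 100)) < a * p 0 := mul_lt_mul_of_pos_left h0.1 ha0
    rcases hx with (⟨k1, k2, k3, k4, k5⟩ | ⟨k1, k2, k3, k4⟩) |
      (⟨k1, k2, k3, k4, k5⟩ | ⟨k1, k2, k3, k4⟩) | (⟨k1, k2, k3, k4, k5⟩ | ⟨k1, k2, k3, k4⟩)
    · nlinarith [mul_pos ha0 (show 0 < x 0 - 2 by linarith)]
    · rw [k1, k2] at hL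
      nlinarith
    · nlinarith [mul_pos ha0 (show 0 < 3 / 2 - x 0 by linarith)]
    · rw [k1] at hL
      nlinarith [mul_nonneg ha0.le (show 0 ≤ - x 0 by linarith)]
    · linarith
    · linarith
  · -- in the plane
    by_contra hne
    have hor : p 0 < p 1 ∨ 0 < p 0 ∨ p 0 + p 1 < 0 := by
      by_contra hcon
      push Not at hcon
      obtain ⟨c1, c2, c3⟩ := hcon
      apply hne
      have d0 : p 0 = 0 := by linarith
      have d1 : p 1 = 0 := by linarith
      ext i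
      revert i
      apply forall3 <;> simpa
    rcases hor with hor | hor | hor
    · refine not_mem_of_dir 1 1 0 (Or.inl (by norm_num)) ?_ hp
      intro t x e0 e1 e2 hx
      rw [hz] at e2
      have e2' : x 2 = 0 := by rw [e2]; ring
      rcases hx with (⟨k1, k2, k3, k4, k5⟩ | ⟨k1, k2, k3, k4⟩) |
        (⟨k1, k2, k3, k4, k5⟩ | ⟨k1, k2, k3, k4⟩) | (⟨k1, k2, k3, k4, k5⟩ | ⟨k1, k2, k3, k4⟩)
      all_goals linarith
    · refine not_mem_of_dir 0 1 0 (Or.inr (Or.inl (by norm_num))) ?_ hp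
      intro t x e0 e1 e2 hx
      rw [hz] at e2
      have e2' : x 2 = 0 := by rw [e2]; ring
      rcases hx with (⟨k1, k2, k3, k4, k5⟩ | ⟨k1, k2, k3, k4⟩) |
        (⟨k1, k2, k3, k4, k5⟩ | ⟨k1, k2, k3, k4⟩) | (⟨k1, k2, k3, k4, k5⟩ | ⟨k1, k2, k3, k4⟩)
      all_goals linarith
    · refine not_mem_of_dir 1 (-1) 0 (Or.inl (by norm_num)) ?_ hp
      intro t x e0 e1 e2 hx
      rw [hz] at e2
      have e2' : x 2 = 0 := by rw [e2]; ring
      rcases hx with (⟨k1, k2, k3, k4, k5⟩ | ⟨k1, k2, k3, k4⟩) |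
        (⟨k1, k2, k3, k4, k5⟩ | ⟨k1, k2, k3, k4⟩) | (⟨k1, k2, k3, k4, k5⟩ | ⟨k1, k2, k3, k4⟩)
      all_goals linarith
  · -- above
    exfalso
    set a : ℝ := p 2 / (19 / 2) with ha
    have ha0 : 0 < a := by
      rw [ha]
      apply div_pos (by linarith) (by norm_num)
    have hp2 : p 2 = 19 / 2 * a := by rw [ha]; ring
    have ha1 : a < 1 / 100 := by linarith
    refine not_mem_of_dir (-(8 * a + 2)) (1 - 4 * a) (4 * a) (Or.inr (Or.inr (by positivity))) ?_ hp
    intro t x e0 e1 e2 hx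
    have hL : x 2 + a * (x 0 - 2 * x 1) = 19 / 2 * a + a * (p 0 - 2 * p 1) := by
      rw [e0, e1, e2, hp2]; ring
    have hg : x 0 + 2 * x 1 + 4 * x 2 = p 0 + 2 * p 1 + 4 * p 2 := by rw [e0, e1, e2]; ring
    have b1 : a * (p 0 - 2 * p 1) < a * (3 / 100) := mul_lt_mul_of_pos_left (by linarith) ha0
    have b2 : a * (-(3 / 100)) < a * (p 0 - 2 * p 1) := mul_lt_mul_of_pos_left (by linarith) ha0
    rcases hx with (⟨k1, k2, k3, k4, k5⟩ | ⟨k1, k2, k3, k4⟩) |
      (⟨k1, k2, k3, k4, k5⟩ | ⟨k1, k2, k3, k4⟩) | (⟨k1, k2, k3, k4, k5⟩ | ⟨k1, k2, k3, k4⟩)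
    · nlinarith [mul_pos ha0 k2, mul_pos ha0 (show 0 < 3 - x 0 by linarith),
        mul_pos ha0 (show 0 < - x 2 by linarith)]
    · rw [k1, k2] at hL
      nlinarith [mul_nonneg ha0.le (show 0 ≤ x 1 + 2 by linarith)]
    · linarith
    · linarith
    · nlinarith [mul_pos ha0 (show 0 < x 0 - 2 * x 1 + 4 * x 2 - 10 by linarith),
        mul_pos k1 (show 0 < 1 / 100 - a by linarith)]
    · rw [k1, k2] at hL
      nlinarith

theorem sep_plane1 (p : E3) (hp : p ∈ hull (⋃ i, Sex i)) :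
    p 0 - 2 * p 1 + 4 * p 2 ≠ 19 / 2 := by
  intro hg0
  refine not_mem_of_dir 2 1 0 (Or.inl (by norm_num)) ?_ hp
  intro t x e0 e1 e2 hx
  have hg : x 0 - 2 * x 1 + 4 * x 2 = 19 / 2 := by rw [e0, e1, e2]; linarith
  rcases hx with (⟨k1, k2, k3, k4, k5⟩ | ⟨k1, k2, k3, k4⟩) |
    (⟨k1, k2, k3, k4, k5⟩ | ⟨k1, k2, k3, k4⟩) | (⟨k1, k2, k3, k4, k5⟩ | ⟨k1, k2, k3, k4⟩)
  all_goals linarith

theorem sep_plane2 (p : E3) (hp : p ∈ hull (⋃ i, Sex i))
    (hg0 : p 0 - 2 * p 1 + 4 * p 2 < 19 / 2) : p 0 ≠ 7 / 4 := by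
  intro hp0
  refine not_mem_of_dir 0 2 1 (Or.inr (Or.inl (by norm_num))) ?_ hp
  intro t x e0 e1 e2 hx
  have hg : x 0 - 2 * x 1 + 4 * x 2 < 19 / 2 := by rw [e0, e1, e2]; linarith
  have hx0 : x 0 = 7 / 4 := by rw [e0]; linarith
  rcases hx with (⟨k1, k2, k3, k4, k5⟩ | ⟨k1, k2, k3, k4⟩) |
    (⟨k1, k2, k3, k4, k5⟩ | ⟨k1, k2, k3, k4⟩) | (⟨k1, k2, k3, k4, k5⟩ | ⟨k1, k2, k3, k4⟩)
  all_goals linarith

open Classical in
/-- The locally constant function with four values. -/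
noncomputable def fex (p : hull (⋃ i, Sex i)) : Fin 4 :=
  if 19 / 2 < p.1 0 - 2 * p.1 1 + 4 * p.1 2 then 2
  else if 7 / 4 < p.1 0 then 0 else if p.1 = 0 then 3 else 1

theorem fex_cont : Continuous fex := by
  classical
  have h0 := cont_coord 0
  have h1 := cont_coord 1
  have h2 := cont_coord 2
  have hg : Continuous (fun x : E3 => x 0 - 2 * x 1 + 4 * x 2) :=
    (h0.sub (h1.const_mul 2)).add (h2.const_mul 4)
  have hW : IsOpen {x : E3 | |x 0| < 1 / 100 ∧ |x 1| < 1 / 100 ∧ |x 2| < 1 / 100} :=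
    (isOpen_lt h0.abs continuous_const).inter ((isOpen_lt h1.abs continuous_const).inter
      (isOpen_lt h2.abs continuous_const))
  have hb : {x : E3 | |x 0| < 1 / 100 ∧ |x 1| < 1 / 100 ∧ |x 2| < 1 / 100} ∩
      hull (⋃ i, Sex i) = {0} := by
    ext x
    constructor
    · rintro ⟨⟨h0, h1, h2⟩, hx⟩
      exact isolated x hx h0 h1 h2
    · intro hx
      rw [mem_singleton_iff] at hx
      subst hx
      refine ⟨?_, zero_mem⟩
      simp
  have key : ∀ k : Fin 4, ∃ V : Set E3, IsOpen V ∧ fex ⁻¹' {k} = Subtype.val ⁻¹' V := by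
    intro k
    fin_cases k
    · refine ⟨{x | x 0 - 2 * x 1 + 4 * x 2 < 19 / 2} ∩ {x | 7 / 4 < x 0},
        (isOpen_lt hg continuous_const).inter (isOpen_lt continuous_const h0), ?_⟩
      ext ⟨x, hx⟩
      have k1 := sep_plane1 x hx
      simp only [fex, mem_preimage, mem_singleton_iff, mem_inter_iff, mem_ofPred_eq]
      constructor
      · intro h
        split_ifs at h with c1 c2 c3
        · exact absurd h (by decide)
        · exact ⟨lt_of_le_of_ne (not_lt.1 c1) k1, c2⟩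
        · exact absurd h (by decide)
        · exact absurd h (by decide)
      · rintro ⟨c1, c2⟩
        rw [if_neg (not_lt.2 c1.le), if_pos c2]
        rfl
    · refine ⟨({x | x 0 - 2 * x 1 + 4 * x 2 < 19 / 2} ∩ {x | x 0 < 7 / 4}) ∩ {0}ᶜ,
        ((isOpen_lt hg continuous_const).inter (isOpen_lt h0 continuous_const)).inter
          isOpen_compl_singleton, ?_⟩
      ext ⟨x, hx⟩
      have k1 := sep_plane1 x hx
      simp only [fex, mem_preimage, mem_singleton_iff, mem_inter_iff, mem_ofPred_eq,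
        mem_compl_iff]
      constructor
      · intro h
        split_ifs at h with c1 c2 c3
        · exact absurd h (by decide)
        · exact absurd h (by decide)
        · exact absurd h (by decide)
        · have c1' := lt_of_le_of_ne (not_lt.1 c1) k1
          exact ⟨⟨c1', lt_of_le_of_ne (not_lt.1 c2) (sep_plane2 x hx c1')⟩, c3⟩
      · rintro ⟨⟨c1, c2⟩, c3⟩
        rw [if_neg (not_lt.2 c1.le), if_neg (not_lt.2 c2.le), if_neg c3]
        rfl
    · refine ⟨{x | 19 / 2 < x 0 - 2 * x 1 + 4 * x 2}, isOpen_lt continuous_const hg, ?_⟩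
      ext ⟨x, hx⟩
      simp only [fex, mem_preimage, mem_singleton_iff, mem_ofPred_eq]
      constructor
      · intro h
        split_ifs at h with c1 c2 c3
        · exact c1
        · exact absurd h (by decide)
        · exact absurd h (by decide)
        · exact absurd h (by decide)
      · intro c1
        rw [if_pos c1]
        rfl
    · refine ⟨_, hW, ?_⟩
      ext ⟨x, hx⟩
      have hb' : x ∈ {x : E3 | |x 0| < 1 / 100 ∧ |x 1| < 1 / 100 ∧ |x 2| < 1 / 100} ↔ x = 0 := by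
        constructor
        · intro h
          have : x ∈ ({0} : Set E3) := by
            rw [← hb]; exact ⟨h, hx⟩
          exact this
        · intro h
          have : x ∈ ({0} : Set E3) := h
          rw [← hb] at this
          exact this.1
      rw [mem_preimage, mem_preimage, hb']
      simp only [fex, mem_singleton_iff]
      constructor
      · intro h
        split_ifs at h with c1 c2 c3
        · exact absurd h (by decide)
        · exact absurd h (by decide)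
        · exact c3
        · exact absurd h (by decide)
      · intro h
        subst h
        norm_num
        rfl
  rw [continuous_discrete_rng]
  intro k
  obtain ⟨V, hV, hVk⟩ := key k
  rw [hVk]
  exact hV.preimage continuous_subtype_val

theorem fex_surj : Function.Surjective fex := by
  have hmem : ∀ x : E3, (x ∈ A0 ∪ B0 ∨ x ∈ A1 ∪ B1 ∨ x ∈ A2 ∪ B2) → x ∈ hull (⋃ i, Sex i) :=
    fun x hx => subset_hull _ ((mem_iff x).2 hx)
  intro k
  fin_cases k
  · refine ⟨⟨!₂[5 / 2, 0, -1], hmem _ (Or.inl (Or.inl ?_))⟩, ?_⟩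
    · simp [A0]; norm_num
    · simp [fex]; norm_num
  · refine ⟨⟨!₂[-2 / 5, 0, 2 / 5], hmem _ (Or.inr (Or.inl (Or.inl ?_)))⟩, ?_⟩
    · simp [A1]; norm_num
    · have hne : (!₂[-2 / 5, 0, 2 / 5] : E3) ≠ 0 := by
        intro h
        have := congrArg (fun x : E3 => x 0) h
        simp at this
      simp [fex, hne]; norm_num
  · refine ⟨⟨!₂[-4, 0, 4], hmem _ (Or.inr (Or.inr (Or.inl ?_)))⟩, ?_⟩
    · simp [A2]; norm_num
    · simp [fex]; norm_num
  · refine ⟨⟨0, zero_mem⟩, ?_⟩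
    simp [fex]; norm_num

theorem four_le : 4 ≤ Cardinal.mk (ConnectedComponents (hull (⋃ i, Sex i))) := by
  have h : Function.Surjective fex_cont.connectedComponentsLift := by
    intro k
    obtain ⟨p, hp⟩ := fex_surj k
    exact ⟨ConnectedComponents.mk p, by simpa using hp⟩
  have := Cardinal.mk_le_of_surjective h
  simpa using this

end Pool.Agent.R757.VH
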