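import Mathlib
import Pool.Agent.R757.VHComp

namespace Pool.Agent.R757.VH

open Set

variable {E : Type*} [NormedAddCommGroup E] [NormedSpace ℝ E] [FiniteDimensional ℝ E]

/-- No nontrivial relation between functionals not vanishing on the translated bodies. -/
theorem no_rel {n : ℕ} (hn : Module.finrank ℝ E = n) {S : Fin n → Set E} {x : E}
    (hx : x ∈ hull (⋃ i, S i)) (f : Fin n → (E →L[ℝ] ℝ))
    (hf : ∀ i, ∀ y ∈ S i, f i x ≠ f i y) (J : Finset (Fin n)) (hJ : J.Nonempty)
    (hsum : ∀ w, ∑ i ∈ J, f i w = 0) : False := by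
  obtain ⟨w, hw, hfw⟩ := exists_ker hn (fun i => (f i).toLinearMap) J hJ hsum
  obtain ⟨t, ht⟩ := hx w hw
  rw [mem_iUnion] at ht
  obtain ⟨i, hi⟩ := ht
  apply hf i _ hi
  have h1 : f i w = 0 := hfw i
  rw [map_add, map_smul, h1]
  simp

omit [FiniteDimensional ℝ E] in
/-- Strict separation of a point from a convex set whose closure misses it. -/
theorem exists_sep (S : Set E) (hS : Convex ℝ S) (x : E) (hx : x ∉ closure S) :
    ∃ g : E →L[ℝ] ℝ, ∀ y ∈ S, g x ≠ g y := by
  obtain ⟨g, u, h1, h2⟩ := geometric_hahn_banach_point_closed hS.closure isClosed_closure hx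
  refine ⟨g, fun y hy => ?_⟩
  have := h2 y (subset_closure hy)
  exact ne_of_lt (h1.trans this)

omit [FiniteDimensional ℝ E] in
theorem Sep.closure_le {n : ℕ} {S : Fin n → Set E} {φ : Fin n → Fin n → (E →L[ℝ] ℝ)}
    {c : Fin n → Fin n → ℝ} (h : Sep S φ c) (i j : Fin n) (hij : i ≠ j) (x : E)
    (hx : x ∈ closure (S i)) : c i j ≤ φ i j x := by
  have h1 : IsClosed {y | c i j ≤ φ i j y} := isClosed_le continuous_const (φ i j).continuous
  exact closure_minimal (fun y hy => (h.pos i j hij y hy).le) h1 hx

/-- Points in the closure of `S i` are on the side of `i`. -/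
theorem side_of_closure {n : ℕ} (hn : Module.finrank ℝ E = n) {S : Fin n → Set E}
    (hc : ∀ i, Convex ℝ (S i))
    {φ : Fin n → Fin n → (E →L[ℝ] ℝ)} {c : Fin n → Fin n → ℝ} (h : Sep S φ c) {x : E}
    (hx : x ∈ hull (⋃ i, S i)) (i j : Fin n) (hij : j ≠ i)
    (hcl : x ∈ closure (S i) ∨ ∀ k, x ∉ closure (S k)) : φ i j x ≠ c i j := by
  classical
  intro h0
  have hsep : ∀ k, ∃ g : E →L[ℝ] ℝ, x ∉ closure (S k) → ∀ y ∈ S k, g x ≠ g y := by
    intro k
    by_cases hk : x ∈ closure (S k)
    · exact ⟨0, fun h => absurd hk h⟩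
    · obtain ⟨g, hg⟩ := exists_sep (S k) (hc k) x hk
      exact ⟨g, fun _ => hg⟩
  choose g hg using hsep
  refine no_rel hn hx (fun k => if k = i then φ i j else if k = j then φ j i else
    if x ∈ closure (S k) then φ k i else g k) ?_ {i, j} ⟨i, by simp⟩ ?_
  · intro k y hy
    by_cases hki : k = i
    · subst hki
      simp only [if_true]
      rw [h0]
      exact ne_of_lt (h.pos k j hij.symm y hy)
    · rw [if_neg hki]
      by_cases hkj : k = j
      · subst hkj
        rw [if_pos rfl]
        have : φ k i x = c k i := by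
          rw [h.anti, h.antic]
          simp only [neg_apply]
          rw [h0]
        rw [this]
        exact ne_of_lt (h.pos k i hki y hy)
      · rw [if_neg hkj]
        by_cases hk : x ∈ closure (S k)
        · rw [if_pos hk]
          have hi : x ∈ closure (S i) := by
            rcases hcl with h | h
            · exact h
            · exact absurd hk (h k)
          have h1 := h.closure_le k i hki x hk
          have h2 := h.closure_le i k (Ne.symm hki) x hi
          rw [h.anti, h.antic] at h2
          simp only [neg_apply] at h2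
          have h3 : φ k i x = c k i := by linarith
          rw [h3]
          exact ne_of_lt (h.pos k i hki y hy)
        · rw [if_neg hk]
          exact hg k hk y hy
  · intro w
    rw [Finset.sum_pair hij.symm]
    simp only [if_true]
    rw [if_neg hij]
    rw [h.anti j i]
    simp

/-- A nonempty set on which `σ` is injective and which it maps into itself. -/
theorem exists_cycle {α : Type*} [Fintype α] [DecidableEq α] [Nonempty α] (σ : α → α) :
    ∃ C : Finset α, C.Nonempty ∧ (∀ a ∈ C, σ a ∈ C) ∧ Set.InjOn σ C := by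
  classical
  refine ⟨Finset.univ.filter (fun a => a ∈ Function.periodicPts σ), ?_, ?_, ?_⟩
  · obtain ⟨a⟩ := ‹Nonempty α›
    obtain ⟨m, m', hne, heq⟩ := Finite.exists_ne_map_eq_of_infinite (fun m : ℕ => σ^[m] a)
    wlog hlt : m < m' generalizing m m'
    · exact this m' m hne.symm heq.symm (lt_of_le_of_ne (not_lt.1 hlt) hne.symm)
    refine ⟨σ^[m] a, ?_⟩
    rw [Finset.mem_filter]
    refine ⟨Finset.mem_univ _, m' - m, Nat.sub_pos_of_lt hlt, ?_⟩
    have : m' = (m' - m) + m := by omega
    rw [Function.IsPeriodicPt, Function.IsFixedPt, ← Function.iterate_add_apply, ← this, heq]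
  · intro a ha
    rw [Finset.mem_filter] at ha ⊢
    exact ⟨Finset.mem_univ _, (Function.bijOn_periodicPts σ).mapsTo ha.2⟩
  · intro a ha b hb hab
    have ha' : a ∈ Function.periodicPts σ := by
      have := (Finset.mem_coe.1 ha)
      rw [Finset.mem_filter] at this
      exact this.2
    have hb' : b ∈ Function.periodicPts σ := by
      have := (Finset.mem_coe.1 hb)
      rw [Finset.mem_filter] at this
      exact this.2
    exact (Function.bijOn_periodicPts σ).injOn ha' hb' hab

/-- The hull is covered by the disjoint open sets `U k`, for arbitrary convex bodies. -/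
theorem hull_cover {n : ℕ} (hn : Module.finrank ℝ E = n) (hn0 : 0 < n) {S : Fin n → Set E}
    (hc : ∀ i, Convex ℝ (S i))
    {φ : Fin n → Fin n → (E →L[ℝ] ℝ)} {c : Fin n → Fin n → ℝ} (h : Sep S φ c) {x : E}
    (hx : x ∈ hull (⋃ i, S i)) : ∃ k, x ∈ U φ c k := by
  classical
  by_cases hcl : ∃ k, x ∈ closure (S k)
  · obtain ⟨k, hk⟩ := hcl
    refine ⟨k, fun j hj => ?_⟩
    have h1 := side_of_closure hn hc h hx k j hj (Or.inl hk)
    exact lt_of_le_of_ne (h.closure_le k j hj.symm x hk) (Ne.symm h1)
  · push Not at hcl
    have hneq : ∀ i j, j ≠ i → φ i j x ≠ c i j := fun i j hij =>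
      side_of_closure hn hc h hx i j hij (Or.inr hcl)
    by_contra hcon
    have hcon' : ∀ k, ∃ j, j ≠ k ∧ φ k j x < c k j := by
      intro k
      by_contra h1
      push Not at h1
      exact hcon ⟨k, fun j hj => lt_of_le_of_ne (h1 j hj) (Ne.symm (hneq k j hj))⟩
    choose σ hσ1 hσ2 using hcon'
    have : Nonempty (Fin n) := ⟨⟨0, hn0⟩⟩
    obtain ⟨C, hCne, hCσ, hCinj⟩ := exists_cycle σ
    have hsep : ∀ k, ∃ g : E →L[ℝ] ℝ, ∀ y ∈ S k, g x ≠ g y := fun k =>
      exists_sep (S k) (hc k) x (hcl k)
    choose g hg using hsep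
    set a : Fin n → ℝ := fun k => (c k (σ k) - φ k (σ k) x)⁻¹ with ha
    have ha0 : ∀ k, 0 < a k := by
      intro k
      have := hσ2 k
      have h2 : 0 < c k (σ k) - φ k (σ k) x := by linarith
      rw [ha]
      positivity
    have ha1 : ∀ k, a k * (φ k (σ k) x - c k (σ k)) = -1 := by
      intro k
      have h2 : c k (σ k) - φ k (σ k) x ≠ 0 := by
        have := hσ2 k
        linarith
      simp only [ha]
      field_simp
      ring
    refine no_rel hn hx (fun k => if k ∈ C then a k • φ k (σ k) -
      ∑ l ∈ C.filter (fun l => σ l = k), a l • φ l (σ l) else g k) ?_ C hCne ?_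
    · intro k y hy
      by_cases hk : k ∈ C
      · simp only [if_pos hk]
        apply ne_of_lt
        have hcard : (C.filter (fun l => σ l = k)).card ≤ 1 := by
          rw [Finset.card_le_one]
          intro l hl m hm
          rw [Finset.mem_filter] at hl hm
          exact hCinj (Finset.mem_coe.2 hl.1) (Finset.mem_coe.2 hm.1) (hl.2.trans hm.2.symm)
        simp only [sub_apply, smul_apply, FunLike.coe_sum, Finset.sum_apply,
          smul_eq_mul]
        -- value at x
        have hx1 : ∑ l ∈ C.filter (fun l => σ l = k), a l * φ l (σ l) x =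
            ∑ l ∈ C.filter (fun l => σ l = k), a l * c l (σ l) -
              (C.filter (fun l => σ l = k)).card := by
          rw [Finset.card_eq_sum_ones, Nat.cast_sum, ← Finset.sum_sub_distrib]
          apply Finset.sum_congr rfl
          intro l _
          have := ha1 l
          push_cast
          linarith
        have hx2 : a k * φ k (σ k) x = a k * c k (σ k) - 1 := by
          have := ha1 k
          linarith
        have hy1 : ∑ l ∈ C.filter (fun l => σ l = k), a l * φ l (σ l) y ≤
            ∑ l ∈ C.filter (fun l => σ l = k), a l * c l (σ l) := by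
          apply Finset.sum_le_sum
          intro l hl
          rw [Finset.mem_filter] at hl
          apply mul_le_mul_of_nonneg_left _ (ha0 l).le
          have h1 : l ≠ σ l := fun h => hσ1 l h.symm
          apply (h.neg l (σ l) h1 y _).le
          rw [hl.2]
          exact hy
        have hy2 : a k * c k (σ k) < a k * φ k (σ k) y := by
          apply mul_lt_mul_of_pos_left _ (ha0 k)
          exact h.pos k (σ k) (Ne.symm (hσ1 k)) y hy
        have hcard' : ((C.filter (fun l => σ l = k)).card : ℝ) ≤ 1 := by exact_mod_cast hcard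
        linarith
      · simp only [if_neg hk]
        exact hg k y hy
    · intro w
      have h1 : ∀ k ∈ C, (if k ∈ C then a k • φ k (σ k) -
          ∑ l ∈ C.filter (fun l => σ l = k), a l • φ l (σ l) else g k) w =
          a k * φ k (σ k) w - ∑ l ∈ C.filter (fun l => σ l = k), a l * φ l (σ l) w := by
        intro k hk
        rw [if_pos hk]
        simp only [sub_apply, smul_apply, FunLike.coe_sum, Finset.sum_apply,
          smul_eq_mul]
      rw [Finset.sum_congr rfl h1, Finset.sum_sub_distrib,
        Finset.sum_fiberwise_of_maps_to hCσ (fun l => a l * φ l (σ l) w)]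
      simp

end Pool.Agent.R757.VH
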